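import Mathlib
import Pool.Agent.H81.Plane

set_option autoImplicit false

namespace Pool.Agent.Results.MP_6df474_gt.Simplex

open Set MeasureTheory Pool.Agent.H81.Plane

/-- Half the surface area (normalised 2-dimensional Hausdorff measure of the boundary). -/
noncomputable def V2 (K : Set (EuclideanSpace ℝ (Fin 3))) : ℝ := (μHE[2] (frontier K)).toReal / 2

/-- The section by the `i`-th coordinate plane, in the two remaining coordinates. -/
def sec (K : Set (EuclideanSpace ℝ (Fin 3))) (i : Fin 3) : Set (EuclideanSpace ℝ (Fin 2)) :=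
  {y | WithLp.toLp 2 (i.insertNth 0 fun j => y j) ∈ K}

/-- Half the perimeter of the section. -/
noncomputable def ell (K : Set (EuclideanSpace ℝ (Fin 3))) (i : Fin 3) : ℝ :=
  (μH[1] (frontier (sec K i))).toReal / 2

def K : Set E3 := {x | -1 ≤ x 0 ∧ -1 ≤ x 1 ∧ -1 ≤ x 2 ∧ x 0 + x 1 + x 2 ≤ 47}
def S : Set E2 := {y | -1 ≤ y 0 ∧ -1 ≤ y 1 ∧ y 0 + y 1 ≤ 47}
def T : Set E2 := {y | 0 ≤ y 0 ∧ 0 ≤ y 1 ∧ y 0 + y 1 ≤ 50}

lemma sec_eq (i : Fin 3) : sec K i = S := by
  ext y
  fin_cases i <;> simp [sec, K, S, Fin.insertNth, Fin.succAboveCases] <;> tauto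

lemma K_closed : IsClosed K := by
  simp only [K, setOf_and]
  refine IsClosed.inter ?_ (IsClosed.inter ?_ (IsClosed.inter ?_ ?_)) <;>
    exact isClosed_le (by fun_prop) (by fun_prop)

lemma S_closed : IsClosed S := by
  simp only [S, setOf_and]
  refine IsClosed.inter ?_ (IsClosed.inter ?_ ?_) <;>
    exact isClosed_le (by fun_prop) (by fun_prop)

lemma K_int {x : E3} (h0 : -1 < x 0) (h1 : -1 < x 1) (h2 : -1 < x 2) (h3 : x 0 + x 1 + x 2 < 47) :
    x ∈ interior K := by
  have : IsOpen {x : E3 | -1 < x 0 ∧ -1 < x 1 ∧ -1 < x 2 ∧ x 0 + x 1 + x 2 < 47} := by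
    simp only [setOf_and]
    refine IsOpen.inter ?_ (IsOpen.inter ?_ (IsOpen.inter ?_ ?_)) <;>
      exact isOpen_lt (by fun_prop) (by fun_prop)
  refine interior_maximal ?_ this ⟨h0, h1, h2, h3⟩
  exact fun x h => ⟨h.1.le, h.2.1.le, h.2.2.1.le, h.2.2.2.le⟩

lemma S_int {x : E2} (h0 : -1 < x 0) (h1 : -1 < x 1) (h3 : x 0 + x 1 < 47) : x ∈ interior S := by
  have : IsOpen {x : E2 | -1 < x 0 ∧ -1 < x 1 ∧ x 0 + x 1 < 47} := by
    simp only [setOf_and]
    refine IsOpen.inter ?_ (IsOpen.inter ?_ ?_) <;>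
      exact isOpen_lt (by fun_prop) (by fun_prop)
  refine interior_maximal ?_ this ⟨h0, h1, h3⟩
  exact fun x h => ⟨h.1.le, h.2.1.le, h.2.2.le⟩

lemma push {x : E2} (hx : x ∈ interior S) (v : E2) : ∃ t : ℝ, 0 < t ∧ x + t • v ∈ S := by
  have h : Filter.Tendsto (fun t : ℝ => x + t • v) (nhdsWithin 0 (Ioi 0)) (nhds x) := by
    have : Continuous fun t : ℝ => x + t • v := by fun_prop
    simpa using (this.tendsto 0).mono_left nhdsWithin_le_nhds
  obtain ⟨t, h1, h2⟩ := ((h.eventually (mem_interior_iff_mem_nhds.1 hx)).and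
    self_mem_nhdsWithin).exists
  exact ⟨t, h2, h1⟩

lemma vol_T : volume T ≤ ENNReal.ofReal 1266 := by
  have e := vol_region (f := fun _ => -1 / 10) (g := fun y => 501 / 10 - y) (a := -1 / 10)
    (b := 501 / 10) (by norm_num) (by fun_prop) (by fun_prop) (fun x hx => by linarith [hx.2])
  have e2 : ∫ y in (-1 / 10 : ℝ)..(501 / 10), (501 / 10 - y - -1 / 10) = 126504 / 100 := by
    have : ∀ y : ℝ, 501 / 10 - y - -1 / 10 = 502 / 10 - y := fun y => by ring
    simp_rw [this]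
    rw [intervalIntegral.integral_sub (by simp) (Continuous.intervalIntegrable (by fun_prop) _ _),
      integral_id]
    simp; norm_num
  rw [e2] at e
  refine le_trans (measure_mono ?_) (e.le.trans (ENNReal.ofReal_le_ofReal (by norm_num)))
  rintro y ⟨h0, h1, h2⟩
  exact ⟨⟨by linarith, by linarith⟩, by linarith, by linarith⟩

noncomputable def lin (u v : E3) : E2 →ₗ[ℝ] E3 where
  toFun y := y 0 • u + y 1 • v
  map_add' x y := by simp [add_smul]; abel
  map_smul' c x := by simp [smul_smul]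

lemma face (u v w : E3) {c : ℝ} (hc : 0 ≤ c)
    (h : inner ℝ u u * inner ℝ v v - inner ℝ u v * inner ℝ v u ≤ c ^ 2) :
    μHE[2] ((fun y => w + lin u v y) '' T) ≤ ENNReal.ofReal (c * 1266) := by
  have h1 : (fun y => w + lin u v y) '' T = (fun x => w + x) '' (lin u v '' T) := by
    rw [image_image]
  have h2 := (lin u v).euclideanHausdorffMeasure_image_eq_normDet_mul_volume T
  rw [finrank_euclideanSpace_fin] at h2
  have h3 := (lin u v).normDet_sq_eq_det_gram (EuclideanSpace.basisFun (Fin 2) ℝ)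
  rw [Matrix.det_fin_two] at h3
  simp [lin, Matrix.gram] at h3
  have h4 : (lin u v).normDet ≤ c := by
    refine abs_le_of_sq_le_sq' ?_ hc |>.2
    simp only [real_inner_self_eq_norm_sq] at h
    exact h3.le.trans h
  rw [h1, (isometry_add_left w).euclideanHausdorffMeasure_image, h2, ENNReal.ofReal_mul hc]
  exact mul_le_mul' (ENNReal.ofReal_le_ofReal h4) vol_T

lemma area : μHE[2] (frontier K) ≤ ENNReal.ofReal 6000 := by
  have hsub : frontier K ⊆ (fun y => !₂[-1, -1, -1] + lin !₂[0, 1, 0] !₂[0, 0, 1] y) '' T ∪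
      (fun y => !₂[-1, -1, -1] + lin !₂[1, 0, 0] !₂[0, 0, 1] y) '' T ∪
      (fun y => !₂[-1, -1, -1] + lin !₂[1, 0, 0] !₂[0, 1, 0] y) '' T ∪
      (fun y => !₂[-1, -1, 49] + lin !₂[1, 0, -1] !₂[0, 1, -1] y) '' T := by
    intro x hx
    rw [K_closed.frontier_eq] at hx
    obtain ⟨⟨h0, h1, h2, h3⟩, hn⟩ := hx
    rcases h0.eq_or_lt with e | h0'
    · refine Or.inl (Or.inl (Or.inl ⟨!₂[x 1 + 1, x 2 + 1], ?_, ?_⟩))
      · simp [T]; refine ⟨by linarith, by linarith, by linarith⟩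
      · ext i; fin_cases i <;> simp [lin, ← e]
    rcases h1.eq_or_lt with e | h1'
    · refine Or.inl (Or.inl (Or.inr ⟨!₂[x 0 + 1, x 2 + 1], ?_, ?_⟩))
      · simp [T]; refine ⟨by linarith, by linarith, by linarith⟩
      · ext i; fin_cases i <;> simp [lin, ← e]
    rcases h2.eq_or_lt with e | h2'
    · refine Or.inl (Or.inr ⟨!₂[x 0 + 1, x 1 + 1], ?_, ?_⟩)
      · simp [T]; refine ⟨by linarith, by linarith, by linarith⟩
      · ext i; fin_cases i <;> simp [lin, ← e]
    rcases h3.eq_or_lt with e | h3'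
    · refine Or.inr ⟨!₂[x 0 + 1, x 1 + 1], ?_, ?_⟩
      · simp [T]; refine ⟨by linarith, by linarith, by linarith⟩
      · ext i; fin_cases i <;> simp [lin]; linarith
    exact (hn (K_int h0' h1' h2' h3')).elim
  have a1 := face !₂[0, 1, 0] !₂[0, 0, 1] !₂[-1, -1, -1] zero_le_one
    (by simp [PiLp.inner_apply, Fin.sum_univ_three, -inner_self_eq_norm_sq_to_K])
  have a2 := face !₂[1, 0, 0] !₂[0, 0, 1] !₂[-1, -1, -1] zero_le_one
    (by simp [PiLp.inner_apply, Fin.sum_univ_three, -inner_self_eq_norm_sq_to_K])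
  have a3 := face !₂[1, 0, 0] !₂[0, 1, 0] !₂[-1, -1, -1] zero_le_one
    (by simp [PiLp.inner_apply, Fin.sum_univ_three, -inner_self_eq_norm_sq_to_K])
  have a4 := face !₂[1, 0, -1] !₂[0, 1, -1] !₂[-1, -1, 49] (c := 1733 / 1000) (by norm_num)
    (by simp [PiLp.inner_apply, Fin.sum_univ_three, -inner_self_eq_norm_sq_to_K]; norm_num)
  refine (measure_mono hsub).trans ((measure_union_le _ _).trans ((add_le_add
    ((measure_union_le _ _).trans (add_le_add ((measure_union_le _ _).trans (add_le_add a1 a2))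
      a3)) a4).trans ?_))
  rw [← ENNReal.ofReal_add (by norm_num) (by norm_num),
    ← ENNReal.ofReal_add (by norm_num) (by norm_num),
    ← ENNReal.ofReal_add (by norm_num) (by norm_num)]
  exact ENNReal.ofReal_le_ofReal (by norm_num)

lemma seg {a b c d : ℝ} {y : E2} : y ∈ segment ℝ (!₂[a, b] : E2) !₂[c, d] ↔
    ∃ t : ℝ, 0 ≤ t ∧ t ≤ 1 ∧ y 0 = a + t * (c - a) ∧ y 1 = b + t * (d - b) := by
  rw [segment_eq_image']
  constructor
  · rintro ⟨t, ht, rfl⟩
    exact ⟨t, ht.1, ht.2, by simp, by simp⟩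
  · rintro ⟨t, h0, h1, h2, h3⟩
    exact ⟨t, ⟨h0, h1⟩, by ext i; fin_cases i <;> simp [h2, h3]⟩

lemma front : frontier S = (segment ℝ (!₂[-1, -1] : E2) !₂[48, -1] ∪
    segment ℝ (!₂[-1, -1] : E2) !₂[-1, 48]) ∪ segment ℝ (!₂[48, -1] : E2) !₂[-1, 48] := by
  rw [S_closed.frontier_eq]
  ext y
  simp only [mem_union, seg, mem_diff]
  constructor
  · rintro ⟨⟨h0, h1, h2⟩, hn⟩
    rcases h1.eq_or_lt with e | h1'
    · exact Or.inl (Or.inl ⟨(y 0 + 1) / 49, by linarith, by linarith, by ring, by linarith⟩)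
    rcases h0.eq_or_lt with e | h0'
    · exact Or.inl (Or.inr ⟨(y 1 + 1) / 49, by linarith, by linarith, by linarith, by ring⟩)
    rcases h2.eq_or_lt with e | h2'
    · exact Or.inr ⟨(y 1 + 1) / 49, by linarith, by linarith, by linarith, by ring⟩
    exact (hn (S_int h0' h1' h2')).elim
  · rintro ((⟨t, h0, h1, h2, h3⟩ | ⟨t, h0, h1, h2, h3⟩) | ⟨t, h0, h1, h2, h3⟩)
    · refine ⟨⟨by linarith, by linarith, by linarith⟩, fun h => ?_⟩
      obtain ⟨s, hs, -, k, -⟩ := push h !₂[0, -1]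
      simp at k; linarith
    · refine ⟨⟨by linarith, by linarith, by linarith⟩, fun h => ?_⟩
      obtain ⟨s, hs, k, -, -⟩ := push h !₂[-1, 0]
      simp at k; linarith
    · refine ⟨⟨by linarith, by linarith, by linarith⟩, fun h => ?_⟩
      obtain ⟨s, hs, -, -, k⟩ := push h !₂[1, 0]
      simp at k; linarith

lemma perim : 167 ≤ (μH[1] (frontier S)).toReal := by
  have := Measure.noAtoms_hausdorff E2 (d := 1) one_pos
  have m : ∀ a b : E2, NullMeasurableSet (segment ℝ a b) μH[1] := fun a b => by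
    rw [segment_eq_image']
    exact (isCompact_Icc.image (by fun_prop)).measurableSet.nullMeasurableSet
  rw [front, measure_union₀ (m _ _), measure_union₀ (m _ _), hausdorffMeasure_segment,
    hausdorffMeasure_segment, hausdorffMeasure_segment, edist_dist, edist_dist, edist_dist,
    ← ENNReal.ofReal_add dist_nonneg dist_nonneg,
    ← ENNReal.ofReal_add (by positivity) dist_nonneg, ENNReal.toReal_ofReal (by positivity)]
  · have d1 : 49 ≤ dist (!₂[-1, -1] : E2) !₂[48, -1] := by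
      rw [EuclideanSpace.dist_eq]
      exact Real.le_sqrt_of_sq_le (by simp [Real.dist_eq, sq_abs]; norm_num)
    have d2 : 49 ≤ dist (!₂[-1, -1] : E2) !₂[-1, 48] := by
      rw [EuclideanSpace.dist_eq]
      exact Real.le_sqrt_of_sq_le (by simp [Real.dist_eq, sq_abs]; norm_num)
    have d3 : 69 ≤ dist (!₂[48, -1] : E2) !₂[-1, 48] := by
      rw [EuclideanSpace.dist_eq]
      exact Real.le_sqrt_of_sq_le (by simp [Real.dist_eq, sq_abs]; norm_num)
    linarith
  · refine measure_mono_null (t := {!₂[-1, -1]}) ?_ (measure_singleton _)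
    rintro y ⟨h1, h2⟩
    obtain ⟨t, -, -, -, a⟩ := seg.1 h1
    obtain ⟨s, -, -, b, -⟩ := seg.1 h2
    ext i; fin_cases i <;> simp <;> linarith
  · refine measure_mono_null (t := {!₂[48, -1], !₂[-1, 48]}) ?_ ((toFinite _).measure_zero _)
    rintro y ⟨h1 | h1, h2⟩
    · obtain ⟨t, -, -, -, a⟩ := seg.1 h1
      obtain ⟨s, -, -, b, c⟩ := seg.1 h2
      left
      ext i; fin_cases i <;> simp <;> linarith
    · obtain ⟨t, -, -, a, -⟩ := seg.1 h1
      obtain ⟨s, -, -, b, c⟩ := seg.1 h2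
      right
      ext i; fin_cases i <;> simp <;> linarith

theorem result : ∃ K : Set (EuclideanSpace ℝ (Fin 3)), IsCompact K ∧ Convex ℝ K ∧
    0 ∈ interior K ∧ μHE[2] (frontier K) ≠ ⊤ ∧
    V2 K ^ 2 < 1 / 16 * (∑ i, ell K i ^ 2) ^ 2 - 1 / 8 * ∑ i, ell K i ^ 4 := by
  refine ⟨K, ?_, ?_, K_int (by simp) (by simp) (by simp) (by simp),
    ne_top_of_le_ne_top ENNReal.ofReal_ne_top area, ?_⟩
  · refine Metric.isCompact_of_isClosed_isBounded K_closed
      ((Metric.isBounded_closedBall (x := (0 : E3)) (r := 100)).subset ?_)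
    rintro x ⟨h0, h1, h2, h3⟩
    rw [mem_closedBall_zero_iff, EuclideanSpace.norm_eq, Real.sqrt_le_left (by norm_num),
      Fin.sum_univ_three]
    simp only [Real.norm_eq_abs, sq_abs]
    nlinarith
  · rintro x ⟨h0, h1, h2, h3⟩ y ⟨k0, k1, k2, k3⟩ a b ha hb hab
    simp only [K, mem_setOf_eq, PiLp.add_apply, PiLp.smul_apply, smul_eq_mul]
    refine ⟨by nlinarith, by nlinarith, by nlinarith, by nlinarith⟩
  · have h1 : (μHE[2] (frontier K)).toReal ≤ 6000 :=
      ENNReal.toReal_le_of_le_ofReal (by norm_num) area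
    have h2 := perim
    have h3 : 0 ≤ (μHE[2] (frontier K)).toReal := ENNReal.toReal_nonneg
    simp only [V2, ell, sec_eq, Fin.sum_univ_three]
    generalize (μH[1] (frontier S)).toReal = L at *
    generalize (μHE[2] (frontier K)).toReal = A at *
    have h4 := pow_le_pow_left₀ (by norm_num) h2 4
    nlinarith

end Pool.Agent.Results.MP_6df474_gt.Simplex
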